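import Pool.Agent.W518.PRF.Defs
import Pool.Agent.W518.PR.Stm

set_option autoImplicit false

open CategoryTheory Pool.Agent.H907R3

namespace Pool.Agent.W518.PRF

section

variable {P : Type} [CommRing P]

/-- translation to the first version of the definitions -/
def old (K : ModCx P) : PR.ModCx P where
  X := K.X
  d := K.d
  dd := K.dd

lemma old_nat (K : ModCx P) : (old K).nat = K.nat := rfl

lemma old_cx (K : ModCx P) : (old K).cx = K.cx := rfl

lemma old_iff (K : ModCx P) (i : ℤ) : (old K).ExtVanishes i ↔ K.ExtVanishes i := Iff.rfl

end

section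

variable {R : Type} [CommRing R] [Algebra ℂ R] (D : CubicalHyperresolution R) {n : ℕ}
  (π : Normalization R n) (q : ℕ)

/-- translation to the first version of the definitions -/
def oldN : PR.Normalization R n := ⟨π.map, π.injective, π.finite⟩

lemma old_duBois : old (duBois D π q) = PR.duBois D (oldN π) q := rfl

lemma dual_iff (i : ℤ) : DualVanishes D π q i ↔ PR.DualVanishes D (oldN π) q i := by
  unfold DualVanishes PR.DualVanishes
  rw [← old_duBois, old_iff]

lemma pre_iff (m : ℕ) : IsPreRational D π m ↔ PR.IsPreRational D (oldN π) m := by
  unfold IsPreRational PR.IsPreRational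
  simp only [dual_iff]

end

end Pool.Agent.W518.PRF
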